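import Pool.Agent.H499R2.NDCor3

set_option autoImplicit false

/-! For every `ε > 0` a finite set is met by the `3x+d` orbits of all but a proportion `ε` of the
integers, uniformly. -/

namespace Pool.Agent.Results.MP_d0d59f_nt.FiniteSetAlmostAll

open Filter Topology Pool.Agent.H499R2.ND

/-- the `3x+d` map on the integers -/
def T (d x : ℤ) : ℤ := if x % 2 = 0 then x / 2 else (3 * x + d) / 2

theorem T_eq (d : ℤ) : T d = Td d := rfl

theorem two_sided (P : ℤ → Prop) (X : ℝ) (h0 : ¬ P 0) :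
    ({x : ℤ | |(x : ℝ)| ≤ X ∧ P x}.ncard : ℝ)
      ≤ G {x | 1 * x ∈ {x | P x}} (2 * X) + G {x | -1 * x ∈ {x | P x}} (2 * X) := by
  classical
  have hsub : {x : ℤ | |(x : ℝ)| ≤ X ∧ P x}
      ⊆ ((pos {x | 1 * x ∈ {x | P x}} (2 * X)) ∪ (pos {x | -1 * x ∈ {x | P x}} (2 * X)).image (fun x => -x) :
        Finset ℤ) := by
    rintro x ⟨hx, hP⟩
    rw [Finset.mem_coe, Finset.mem_union, Finset.mem_image]
    have hx0 : x ≠ 0 := by rintro rfl; exact h0 hP
    rw [abs_le] at hx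
    rcases lt_or_gt_of_ne hx0 with h | h
    · right
      refine ⟨-x, ?_, by ring⟩
      rw [mem_pos]
      have h1 : (1 : ℝ) ≤ ((-x : ℤ) : ℝ) := by exact_mod_cast (by omega : 1 ≤ -x)
      refine ⟨⟨by omega, ?_⟩, ?_⟩
      · push_cast at h1 ⊢; linarith [hx.1]
      · change P (-1 * -x)
        simpa using hP
    · left
      rw [mem_pos]
      have h1 : (1 : ℝ) ≤ (x : ℝ) := by exact_mod_cast h
      refine ⟨⟨by omega, by linarith [hx.2]⟩, ?_⟩
      change P (1 * x)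
      simpa using hP
  have h1 := Set.ncard_le_ncard hsub (Finset.finite_toSet _)
  rw [Set.ncard_coe_finset] at h1
  have h2 := h1.trans ((Finset.card_union_le _ _).trans (Nat.add_le_add_left Finset.card_image_le _))
  unfold G
  exact_mod_cast h2

theorem Td_zero_iter (d : ℤ) (n : ℕ) : (Td d)^[n] 0 = 0 := by
  induction n with
  | zero => rfl
  | succ n ih => rw [Function.iterate_succ_apply]; exact ih

/-- Let `d` be odd and prime to `3`. (1) For every `B` there is `C` such that for all `X ≥ 1` and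
`y ≥ 2` at most `C X / (log y)^B` of the integers `x` with `|x| ≤ X` have a `3x+d` orbit without any
element in `[-y,y]`. (2) For every `ε > 0` there is a finite set `F` such that for every `X ≥ 1` at
most `ε X` of the integers `x` with `|x| ≤ X` have a `3x+d` orbit disjoint from `F`. -/
theorem result (d : ℤ) (hd : d % 2 = 1) (hd3 : ¬ (3 : ℤ) ∣ d) :
    (∀ B : ℕ, ∃ C : ℝ, 0 < C ∧ ∀ X y : ℝ, 1 ≤ X → 2 ≤ y →
      ({x : ℤ | |(x : ℝ)| ≤ X ∧ ∀ n : ℕ, y < |(((T d)^[n] x : ℤ) : ℝ)|}.ncard : ℝ)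
        ≤ C * X / (Real.log y) ^ B) ∧
    (∀ ε : ℝ, 0 < ε → ∃ F : Finset ℤ, ∀ X : ℝ, 1 ≤ X →
      ({x : ℤ | |(x : ℝ)| ≤ X ∧ ∀ n : ℕ, (T d)^[n] x ∉ F}.ncard : ℝ) ≤ ε * X) := by
  have hodd : Odd d := Int.odd_iff.2 hd
  have hc3 := cop_of_not_dvd hd3
  have key : ∀ B : ℕ, ∃ C : ℝ, 0 < C ∧ ∀ X y : ℝ, 1 ≤ X → 2 ≤ y →
      ({x : ℤ | |(x : ℝ)| ≤ X ∧ ∀ n : ℕ, y < |(((T d)^[n] x : ℤ) : ℝ)|}.ncard : ℝ)
        ≤ C * X / (Real.log y) ^ B := by
    intro B
    obtain ⟨K1, hK1, h1⟩ := stay_side B hodd hc3 (Or.inl rfl : (1 : ℤ) = 1 ∨ _)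
    obtain ⟨K2, hK2, h2⟩ := stay_side B hodd hc3 (Or.inr rfl : (-1 : ℤ) = 1 ∨ _)
    refine ⟨2 * (K1 + K2), by positivity, fun X y hX hy => ?_⟩
    have h3 := two_sided (fun x => ∀ n : ℕ, y < |(((T d)^[n] x : ℤ) : ℝ)|) X (by
      intro h
      have := h 0
      simp at this
      linarith)
    have e1 := h1 y hy (2 * X) (by linarith)
    have e2 := h2 y hy (2 * X) (by linarith)
    refine h3.trans ((add_le_add e1 e2).trans (le_of_eq ?_))
    ring
  refine ⟨key, fun ε hε => ?_⟩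
  obtain ⟨C, hC, h⟩ := key 1
  obtain ⟨y, hy2, hyε⟩ : ∃ y : ℝ, 2 ≤ y ∧ C / Real.log y ≤ ε := by
    refine ⟨Real.exp (C / ε + 1), ?_, ?_⟩
    · have := Real.add_one_le_exp (C / ε + 1)
      have : 0 < C / ε := by positivity
      linarith
    · rw [Real.log_exp, div_le_iff₀ (by positivity)]
      have : ε * (C / ε + 1) = C + ε := by field_simp
      rw [this]; linarith
  refine ⟨Finset.Icc (-⌊y⌋) ⌊y⌋, fun X hX => ?_⟩
  have h1 := h X y hX hy2
  rw [pow_one] at h1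
  have hset : {x : ℤ | |(x : ℝ)| ≤ X ∧ ∀ n : ℕ, (T d)^[n] x ∉ Finset.Icc (-⌊y⌋) ⌊y⌋}
      = {x : ℤ | |(x : ℝ)| ≤ X ∧ ∀ n : ℕ, y < |(((T d)^[n] x : ℤ) : ℝ)|} := by
    ext x
    apply and_congr Iff.rfl
    apply forall_congr'
    intro n
    set m := (T d)^[n] x
    rw [Finset.mem_Icc]
    constructor
    · intro hn
      by_contra hcon
      push Not at hcon
      rw [abs_le] at hcon
      apply hn
      constructor
      · have h2 : ((-m : ℤ) : ℝ) ≤ y := by push_cast; linarith [hcon.1]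
        have := Int.le_floor.2 h2
        omega
      · exact Int.le_floor.2 hcon.2
    · intro hn hm
      have h1 : (m : ℝ) ≤ y := Int.le_floor.1 hm.2
      have h2 : ((-m : ℤ) : ℝ) ≤ y := Int.le_floor.1 (by omega)
      push_cast at h2
      have : |(m : ℝ)| ≤ y := abs_le.2 ⟨by linarith, h1⟩
      linarith
  rw [hset]
  refine h1.trans ?_
  rw [mul_div_right_comm]
  exact mul_le_mul_of_nonneg_right hyε (by linarith)

end Pool.Agent.Results.MP_d0d59f_nt.FiniteSetAlmostAll
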