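import Mathlib
import Pool.Agent.H499R2.LT.R5
import Pool.Agent.H499R2.LT.Q1

set_option autoImplicit false

/-!
The law of the time at which the orbits of the `3x+d` maps meet a finite set.
-/

namespace Pool.Agent.Results.MP_d0d59f_nt.HittingLaw

open Filter Topology

/-- the `3x+d` map on the integers -/
def T (d x : ℤ) : ℤ := if x % 2 = 0 then x / 2 else (3 * x + d) / 2

/-- The orbit of `x` meets `F` for the first time after exactly `k` steps. -/
def FirstHit (d : ℤ) (F : Finset ℤ) (k : ℕ) (x : ℤ) : Prop :=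
  (T d)^[k] x ∈ F ∧ ∀ i < k, (T d)^[i] x ∉ F

/-- the number of odd terms among `x, T x, ..., T^(k-1) x` -/
def odds (d : ℤ) (k : ℕ) (x : ℤ) : ℕ := ((Finset.range k).filter fun i => (T d)^[i] x % 2 = 1).card

/-- The set of the positive integers with the property `P` has natural density `l`. -/
def HasDensity (P : ℕ → Prop) (l : ℝ) : Prop :=
  Tendsto (fun N : ℕ => (Set.ncard {n : ℕ | 1 ≤ n ∧ n ≤ N ∧ P n} : ℝ) / N) atTop (𝓝 l)

/-- `2 / log (4/3) * log n + x * log 3 * √(2 log n / (log (4/3))^3)` -/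
noncomputable def bound (x : ℝ) (n : ℕ) : ℝ :=
  2 / Real.log (4 / 3) * Real.log n
    + x * (Real.log 3 * Real.sqrt (2 * Real.log n / Real.log (4 / 3) ^ 3))

/-- The distribution function of the standard normal law. -/
noncomputable def Phi (x : ℝ) : ℝ :=
  ProbabilityTheory.cdf (ProbabilityTheory.gaussianReal 0 1) x

theorem odds_eq (d : ℤ) (k : ℕ) (x : ℤ) : Pool.Agent.H499R2.LT.od d k x = (odds d k x : ℤ) := by
  induction k with
  | zero => rfl
  | succ k ih =>
    rw [Pool.Agent.H499R2.LT.od_add, ih]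
    unfold odds
    rw [Finset.range_add_one, Finset.filter_insert]
    have h1 : Pool.Agent.H499R2.LT.od d 1 ((T d)^[k] x) = if (T d)^[k] x % 2 = 0 then 0 else 1 := by
      rw [Pool.Agent.H499R2.LT.od, Pool.Agent.H499R2.LT.od, add_zero]
    change _ + Pool.Agent.H499R2.LT.od d 1 ((T d)^[k] x) = _
    rw [h1]
    rcases Int.emod_two_eq_zero_or_one ((T d)^[k] x) with h | h
    · rw [if_pos h, if_neg (by omega)]
      simp
    · rw [if_neg (by omega), if_pos h, Finset.card_insert_of_notMem (by simp)]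
      push_cast
      ring

theorem dens_all {P : ℕ → Prop} (h : ∀ n, P n) : HasDensity P 1 := by
  unfold HasDensity
  refine tendsto_const_nhds.congr' ?_
  filter_upwards [eventually_ge_atTop 1] with N hN
  have h1 : {n : ℕ | 1 ≤ n ∧ n ≤ N ∧ P n} = ((Finset.Icc 1 N : Finset ℕ) : Set ℕ) := by
    ext n
    rw [Finset.coe_Icc, Set.mem_Icc]
    exact ⟨fun hn => ⟨hn.1, hn.2.1⟩, fun hn => ⟨hn.1, hn.2, h n⟩⟩
  have hN' : (N : ℝ) ≠ 0 := by
    have : N ≠ 0 := by omega
    exact_mod_cast this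
  rw [h1, Set.ncard_coe_finset, Nat.card_Icc, Nat.add_sub_cancel, div_self hN']

/-- Let `d` be odd and prime to `3`. (1) Let `s` be a sign and `F` a finite set of integers. The
integers of the sign of `s` whose orbit meets `F` have a natural density `δ`, positive if `F`
contains an integer of the sign of `s` prime to `3`; and for every real `x`, every `m ≥ 1` and all
`a`, `b`, those whose orbit meets `F` for the first time after at most `bound x n` steps, the number
of steps being `≡ a` and the number of odd terms before `≡ b` modulo `m`, have natural density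
`δ * Phi x / m ^ 2`. (2) There is a finite set met by the orbits of all integers (which is what Q1
asserts for `d`) if and only if there is a finite set for which the densities in (1) are `1` for
both signs. -/
theorem result (d : ℤ) (hd : d % 2 = 1) (hd3 : ¬ (3 : ℤ) ∣ d) :
    (∀ s : ℤ, s = 1 ∨ s = -1 → ∀ F : Finset ℤ, ∃ δ : ℝ,
      ((∃ a ∈ F, 0 < s * a ∧ ¬ (3 : ℤ) ∣ a) → 0 < δ) ∧
      HasDensity (fun n => ∃ k : ℕ, (T d)^[k] (s * n) ∈ F) δ ∧
      ∀ (x : ℝ) (m : ℕ) (a b : ℤ), 1 ≤ m →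
        HasDensity (fun n => ∃ k : ℕ, (k : ℝ) ≤ bound x n ∧ FirstHit d F k (s * n) ∧
          (k : ℤ) ≡ a [ZMOD m] ∧ (odds d k (s * n) : ℤ) ≡ b [ZMOD m]) (δ * Phi x / m ^ 2)) ∧
    ((∃ F : Finset ℤ, ∀ x : ℤ, ∃ k : ℕ, (T d)^[k] x ∈ F) ↔
      ∃ F : Finset ℤ, HasDensity (fun n => ∃ k : ℕ, (T d)^[k] (n : ℤ) ∈ F) 1 ∧
        HasDensity (fun n => ∃ k : ℕ, (T d)^[k] (-(n : ℤ)) ∈ F) 1) := by
  have hodd : Odd d := Int.odd_iff.2 hd
  refine ⟨fun s hs F => ?_, ?_, ?_⟩
  · obtain ⟨δ, _, hpos, hδ, hlaw⟩ := Pool.Agent.H499R2.LT.joint_side hodd hd3 hs F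
    refine ⟨δ, hpos, hδ, fun x m a b hm => ?_⟩
    have h := hlaw x m a b hm
    have e : δ / (m : ℝ) ^ 2 * Pool.Agent.H499R2.ND.Phi x = δ * Phi x / m ^ 2 := by
      unfold Phi
      rw [← Pool.Agent.H499R2.ND.phi_cdf]
      ring
    rw [e] at h
    refine Pool.Agent.H499R2.LT.Dn_iff (fun n hn => ?_) h
    refine exists_congr fun k => ?_
    rw [Pool.Agent.H499R2.LT.tb2 x n hn, odds_eq]
    rfl
  · rintro ⟨F, hF⟩
    exact ⟨F, dens_all fun n => hF n, dens_all fun n => hF (-(n : ℤ))⟩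
  · rintro ⟨F, h1, h2⟩
    exact Pool.Agent.H499R2.LT.zero_one hodd hd3 F h1 h2

end Pool.Agent.Results.MP_d0d59f_nt.HittingLaw
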