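import Pool.Agent.H319R3.LV.LV9

/-!
Finite sets met by almost all orbits of the `3x+d` map in every residue class modulo `2^j 3^m`, for
moduli up to a power of the size, in the expected number of steps.
-/

set_option autoImplicit false
set_option linter.unusedVariables false

namespace Pool.Agent.Results.MP_d0d59f_nt.LevelOfDistribution

open Filter Topology

/-- The `3x+d` map. -/
def T (d x : ℤ) : ℤ := if x % 2 = 0 then x / 2 else (3 * x + d) / 2

/-- The integers `x ≡ a` mod `q` with `|x| ≤ N` whose orbit under `T d` does not meet `F` within the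
first `K log |x|` steps. -/
def Late (d : ℤ) (F : Finset ℤ) (K : ℝ) (N : ℕ) (q a : ℤ) : Set ℤ :=
  {x : ℤ | |x| ≤ N ∧ x ≡ a [ZMOD q] ∧ ∀ k : ℕ, (k : ℝ) ≤ K * Real.log |(x : ℝ)| → (T d)^[k] x ∉ F}

open Pool.Agent.H319R3.LV Pool.Agent.H499R2.ND Pool.Agent.H320R2.PD

theorem result (d : ℤ) (hd : Odd d) (h3 : ¬ (3 : ℤ) ∣ d) (η : ℝ) (hη : 0 < η) :
    ∃ c : ℝ, 0 < c ∧ ∀ ε : ℝ, 0 < ε → ∃ F : Finset ℤ, ∃ N₀ : ℕ, ∀ N : ℕ, N₀ ≤ N → ∀ j m : ℕ,
      (2 ^ j * 3 ^ m : ℝ) ≤ (N : ℝ) ^ c → ∀ a : ℤ,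
        ((Late d F (2 / Real.log (4 / 3) + η) N (2 ^ j * 3 ^ m) a).ncard : ℝ)
          ≤ ε * (N / (2 ^ j * 3 ^ m)) := by
  have hd3 : IsCoprime d 3 := cop_of_not_dvd h3
  obtain ⟨c, hc, hc', h⟩ := timed_side hd hd3 (η := η / 3) (by positivity)
  refine ⟨c, hc, fun ε hε => ?_⟩
  set ε' : ℝ := min (ε / 8) (1 / 2) with hε'
  have hε'0 : 0 < ε' := lt_min (by positivity) (by norm_num)
  have hε'1 : ε' ≤ ε / 8 := min_le_left _ _
  obtain ⟨y1, hy1, N1, hN1, hA⟩ := h 1 (Or.inl rfl) ε' hε'0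
  obtain ⟨y2, hy2, N2, hN2, hB⟩ := h (-1) (Or.inr rfl) ε' hε'0
  set y : ℝ := max y1 y2 with hy
  set κ : ℝ := 2 / Real.log (4 / 3) with hκ
  have hκ0 : 0 < κ := by
    have : 0 < Real.log (4 / 3) := Real.log_pos (by norm_num)
    positivity
  set M1 : ℝ := Real.exp ((3 / η) * ((κ + η / 3) * 1 + 1 + (κ + η) * Real.log (1 / ε'))) with hM1
  obtain ⟨N3, hN3⟩ := exists_nat_ge (max M1 ((1 / ε') ^ 2))
  refine ⟨Finset.Icc (-⌈y⌉) ⌈y⌉, max (max N1 N2) (max N3 1), ?_⟩
  intro N hN j m hjm a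
  have hN1' : N1 ≤ N := ((le_max_left _ _).trans (le_max_left _ _)).trans hN
  have hN2' : N2 ≤ N := ((le_max_right _ _).trans (le_max_left _ _)).trans hN
  have hN3' : N3 ≤ N := ((le_max_left _ _).trans (le_max_right _ _)).trans hN
  have hN4 : 1 ≤ N := ((le_max_right _ _).trans (le_max_right _ _)).trans hN
  have hNR : (1 : ℝ) ≤ N := by exact_mod_cast hN4
  have hN3R : (N3 : ℝ) ≤ N := by exact_mod_cast hN3'
  have hM1N : M1 ≤ N := ((le_max_left _ _).trans hN3).trans hN3R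
  have hεN : (1 / ε') ^ 2 ≤ N := ((le_max_right _ _).trans hN3).trans hN3R
  have hlogN : (3 / η) * ((κ + η / 3) * 1 + 1 + (κ + η) * Real.log (1 / ε')) ≤ Real.log N := by
    rw [Real.le_log_iff_exp_le (by linarith)]; exact hM1N
  set τ := ⌈(κ + η / 3) * Real.log ((N : ℝ) + 1)⌉₊ with hτ
  have hA' := hA y (le_max_left _ _) N hN1' τ (Nat.le_ceil _) j m hjm a
  have hB' := hB y (le_max_right _ _) N hN2' τ (Nat.le_ceil _) j m hjm a
  set q : ℝ := 2 ^ j * 3 ^ m with hq
  have hq0 : 0 < q := by positivity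
  set Q : ℤ := 2 ^ j * 3 ^ m with hQ
  set Y : ℝ := (N : ℝ) / q with hY
  have hY0 : 0 < Y := by positivity
  set U : ℤ → Set ℤ := fun s => {n : ℤ | 0 < s * n ∧ s * n ≤ N ∧ n ∈ TS d y τ ∧ Q ∣ n - a} with hU
  set V : ℤ → Set ℤ := fun s => {n : ℤ | 0 < s * n ∧ s * n ≤ (⌊ε' * N⌋₊ : ℕ) ∧
    n ∈ (Set.univ : Set ℤ) ∧ Q ∣ n - a} with hV
  have hfinbig : ∀ s : ℤ, (s = 1 ∨ s = -1) → ∀ M : ℕ, {n : ℤ | 0 < s * n ∧ s * n ≤ M}.Finite := by
    intro s hs M
    apply (Set.finite_Icc (-(M : ℤ)) M).subset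
    rintro n ⟨h3, h4⟩
    rw [Set.mem_Icc]
    rcases hs with rfl | rfl <;> constructor <;> omega
  have hUfin : ∀ s : ℤ, (s = 1 ∨ s = -1) → (U s).Finite := fun s hs =>
    (hfinbig s hs N).subset fun n hn => ⟨hn.1, hn.2.1⟩
  have hVfin : ∀ s : ℤ, (s = 1 ∨ s = -1) → (V s).Finite := fun s hs =>
    (hfinbig s hs _).subset fun n hn => ⟨hn.1, hn.2.1⟩
  have hTT : ∀ k : ℕ, ∀ x : ℤ, (T d)^[k] x = (Td d)^[k] x := fun k x => rfl
  have hτle : (τ : ℝ) ≤ (κ + η / 3) * (Real.log N + 1) + 1 := by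
    have h3 : (τ : ℝ) < (κ + η / 3) * Real.log ((N : ℝ) + 1) + 1 := by
      apply Nat.ceil_lt_add_one
      apply mul_nonneg (by positivity) (Real.log_nonneg (by linarith))
    have h4 : Real.log ((N : ℝ) + 1) ≤ Real.log N + 1 := by
      have h5 : Real.log ((N : ℝ) + 1) ≤ Real.log (Real.exp 1 * N) := by
        apply Real.log_le_log (by linarith)
        have := Real.add_one_le_exp 1
        nlinarith
      rw [Real.log_mul (Real.exp_pos 1).ne' (by linarith), Real.log_exp] at h5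
      linarith
    have h5 : (κ + η / 3) * Real.log ((N : ℝ) + 1) ≤ (κ + η / 3) * (Real.log N + 1) :=
      mul_le_mul_of_nonneg_left h4 (by positivity)
    linarith
  -- one side
  have hside : ∀ s : ℤ, (s = 1 ∨ s = -1) → ∀ n : ℤ, 0 < s * n → s * n ≤ N → Q ∣ n - a →
      (∀ k : ℕ, (k : ℝ) ≤ (κ + η) * Real.log |(n : ℝ)| → (T d)^[k] n ∉ Finset.Icc (-⌈y⌉) ⌈y⌉) →
      n ∈ U s ∪ V s := by
    intro s hs n h3 h4 h6 hlate
    by_cases hU' : n ∈ TS d y τ
    · exact Or.inl ⟨h3, h4, hU', h6⟩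
    · by_cases hV' : s * n ≤ (⌊ε' * N⌋₊ : ℕ)
      · exact Or.inr ⟨h3, hV', Set.mem_univ _, h6⟩
      · exfalso
        have h7 : ∃ i : ℕ, i ≤ τ ∧ |(((Td d)^[i] n : ℤ) : ℝ)| ≤ y := by
          by_contra hcon
          push Not at hcon
          exact hU' fun i hi => hcon i hi
        obtain ⟨i, hi, hiy⟩ := h7
        apply hlate i
        · have h8 : |(n : ℝ)| = ((s * n : ℤ) : ℝ) := by
            rcases hs with rfl | rfl
            · rw [one_mul, abs_of_pos]
              have : 0 < n := by omega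
              exact_mod_cast this
            · rw [abs_of_neg]
              · push_cast; ring
              · have : n < 0 := by omega
                exact_mod_cast this
          have h9 : ε' * N ≤ |(n : ℝ)| := by
            rw [h8]
            push Not at hV'
            have h10 : ε' * N < (⌊ε' * (N : ℝ)⌋₊ : ℝ) + 1 := Nat.lt_floor_add_one _
            have h11 : ((⌊ε' * (N : ℝ)⌋₊ : ℕ) : ℤ) + 1 ≤ s * n := by omega
            have h12 : ((⌊ε' * (N : ℝ)⌋₊ : ℕ) : ℝ) + 1 ≤ ((s * n : ℤ) : ℝ) := by exact_mod_cast h11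
            linarith
          have h10 : Real.log N - Real.log (1 / ε') ≤ Real.log |(n : ℝ)| := by
            have h11 := Real.log_le_log (by positivity) h9
            rw [Real.log_mul hε'0.ne' (by linarith)] at h11
            rw [one_div, Real.log_inv]
            linarith
          have h11 : (κ + η) * (Real.log N - Real.log (1 / ε')) ≤ (κ + η) * Real.log |(n : ℝ)| :=
            mul_le_mul_of_nonneg_left h10 (by positivity)
          have h12 : (i : ℝ) ≤ τ := by exact_mod_cast hi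
          have h14 : (κ + η / 3) * 1 + 1 + (κ + η) * Real.log (1 / ε') ≤ η / 3 * Real.log N := by
            have := mul_le_mul_of_nonneg_left hlogN (by positivity : 0 ≤ η / 3)
            have e : η / 3 * (3 / η * ((κ + η / 3) * 1 + 1 + (κ + η) * Real.log (1 / ε')))
                = (κ + η / 3) * 1 + 1 + (κ + η) * Real.log (1 / ε') := by field_simp
            linarith
          have h15 : 0 ≤ Real.log N := Real.log_nonneg hNR
          nlinarith
        · rw [hTT, Finset.mem_Icc]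
          have h1 := abs_le.1 hiy
          have h2 := Int.le_ceil y
          constructor
          · have : (-(⌈y⌉ : ℤ) : ℝ) ≤ ((Td d)^[i] n : ℤ) := by linarith [h1.1]
            exact_mod_cast this
          · have : (((Td d)^[i] n : ℤ) : ℝ) ≤ ⌈y⌉ := by linarith [h1.2]
            exact_mod_cast this
  have hsub : Late d (Finset.Icc (-⌈y⌉) ⌈y⌉) (κ + η) N Q a ⊆ (U 1 ∪ V 1) ∪ (U (-1) ∪ V (-1)) := by
    rintro x ⟨hx1, hx2, hx3⟩
    have hdv : Q ∣ x - a := by
      have := hx2.symm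
      exact Int.modEq_iff_dvd.1 this
    rcases lt_trichotomy x 0 with hx | hx | hx
    · right
      apply hside (-1) (Or.inr rfl) x (by omega) _ hdv hx3
      rw [abs_of_neg hx] at hx1; omega
    · exfalso
      subst hx
      apply hx3 0
      · simp
      · rw [Function.iterate_zero, id, Finset.mem_Icc]
        have h2 : (0 : ℝ) ≤ y := by
          have : y1 ≤ y := le_max_left _ _
          linarith
        have h4 : 0 ≤ ⌈y⌉ := Int.ceil_nonneg h2
        omega
    · left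
      apply hside 1 (Or.inl rfl) x (by omega) _ hdv hx3
      rw [abs_of_pos hx] at hx1; omega
  have hcard : ((Late d (Finset.Icc (-⌈y⌉) ⌈y⌉) (κ + η) N Q a).ncard : ℝ)
      ≤ ((U 1).ncard + (V 1).ncard) + ((U (-1)).ncard + (V (-1)).ncard) := by
    have h1 := (Set.ncard_le_ncard hsub (((hUfin 1 (Or.inl rfl)).union (hVfin 1 (Or.inl rfl))).union
      ((hUfin (-1) (Or.inr rfl)).union (hVfin (-1) (Or.inr rfl))))).trans
      ((Set.ncard_union_le _ _).trans (Nat.add_le_add (Set.ncard_union_le _ _) (Set.ncard_union_le _ _)))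
    exact_mod_cast h1
  have hVle : ∀ s : ℤ, (s = 1 ∨ s = -1) → ((V s).ncard : ℝ) ≤ 2 * ε' * Y := by
    intro s hs
    rw [hV]
    simp only
    rw [ncard_class hs Set.univ]
    have h3 := wc_card_le {x : ℤ | s * x ∈ (Set.univ : Set ℤ)}
      (by linarith [Nat.cast_nonneg (α := ℝ) ⌊ε' * (N : ℝ)⌋₊] : (1 : ℝ) ≤ (⌊ε' * (N : ℝ)⌋₊ : ℝ) + 1)
      (q := Q) (by positivity) (s * a)
    have hQq : ((Q : ℤ) : ℝ) = q := by rw [hQ, hq]; push_cast; ring
    rw [hQq] at h3
    have h4 : (⌊ε' * (N : ℝ)⌋₊ : ℝ) ≤ ε' * N := Nat.floor_le (by positivity)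
    have h5 : ((⌊ε' * (N : ℝ)⌋₊ : ℝ) + 1 - 1) / q ≤ ε' * Y := by
      rw [hY, mul_div_assoc']
      apply div_le_div_of_nonneg_right _ hq0.le
      linarith
    have h6 : 1 ≤ ε' * Y := by
      have h7 : q ≤ Real.sqrt N := by
        rw [Real.sqrt_eq_rpow]
        refine hjm.trans (Real.rpow_le_rpow_of_exponent_le hNR ?_)
        linarith
      have h8 : 1 / ε' ≤ Real.sqrt N := Real.le_sqrt_of_sq_le hεN
      have h9 : Real.sqrt N * Real.sqrt N = N := Real.mul_self_sqrt (by linarith)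
      rw [hY, mul_div_assoc', le_div_iff₀ hq0, one_mul]
      have h10 : 1 ≤ ε' * Real.sqrt N := by
        rw [div_le_iff₀ hε'0] at h8; linarith
      calc q ≤ Real.sqrt N := h7
        _ = 1 * Real.sqrt N := by ring
        _ ≤ (ε' * Real.sqrt N) * Real.sqrt N := mul_le_mul_of_nonneg_right h10 (Real.sqrt_nonneg _)
        _ = ε' * N := by rw [mul_assoc, h9]
    linarith
  have hV1 := hVle 1 (Or.inl rfl)
  have hV2 := hVle (-1) (Or.inr rfl)
  have hU1 : ((U 1).ncard : ℝ) ≤ ε' * Y := hA'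
  have hU2 : ((U (-1)).ncard : ℝ) ≤ ε' * Y := hB'
  have hε8 : ε' * Y ≤ ε / 8 * Y := mul_le_mul_of_nonneg_right hε'1 hY0.le
  have hεY : 0 < ε * Y := by positivity
  refine hcard.trans ?_
  linarith

end Pool.Agent.Results.MP_d0d59f_nt.LevelOfDistribution
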