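import Mathlib
import Pool.Agent.H499R2.LT.R1

set_option autoImplicit false

/-!
Local limit theorem for the inverse trees of the `3x+d` maps: the number of integers whose orbit
meets a finite set for the first time after exactly `k` steps, `o` of them odd.
-/

namespace Pool.Agent.Results.MP_d0d59f_nt.TreeLocalLimit

open Filter Topology

/-- the `3x+d` map on the integers -/
def T (d x : ℤ) : ℤ := if x % 2 = 0 then x / 2 else (3 * x + d) / 2

/-- the number of odd terms among `x, T x, ..., T^(k-1) x` -/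
def odds (d : ℤ) (k : ℕ) (x : ℤ) : ℕ := ((Finset.range k).filter fun i => (T d)^[i] x % 2 = 1).card

/-- The integers of the sign of `s` whose orbit meets `F` for the first time after exactly `k`
steps, exactly `o` of the terms before being odd. -/
def Level (d s : ℤ) (F : Finset ℤ) (k o : ℕ) : Set ℤ :=
  {x : ℤ | 0 < s * x ∧ (T d)^[k] x ∈ F ∧ (∀ i < k, (T d)^[i] x ∉ F) ∧ odds d k x = o}

/-- The set of the positive integers with the property `P` has natural density `l`. -/
def HasDensity (P : ℕ → Prop) (l : ℝ) : Prop :=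
  Tendsto (fun N : ℕ => (Set.ncard {n : ℕ | 1 ≤ n ∧ n ≤ N ∧ P n} : ℝ) / N) atTop (𝓝 l)

theorem odds_eq (d : ℤ) (k : ℕ) (x : ℤ) : Pool.Agent.H499R2.LT.od d k x = (odds d k x : ℤ) := by
  induction k with
  | zero => rfl
  | succ k ih =>
    rw [Pool.Agent.H499R2.LT.od_add, ih]
    unfold odds
    rw [Finset.range_add_one, Finset.filter_insert]
    have h1 : Pool.Agent.H499R2.LT.od d 1 ((T d)^[k] x) = if (T d)^[k] x % 2 = 0 then 0 else 1 := by
      rw [Pool.Agent.H499R2.LT.od, Pool.Agent.H499R2.LT.od, add_zero]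
    change _ + Pool.Agent.H499R2.LT.od d 1 ((T d)^[k] x) = _
    rw [h1]
    rcases Int.emod_two_eq_zero_or_one ((T d)^[k] x) with h | h
    · rw [if_pos h, if_neg (by omega)]
      simp
    · rw [if_neg (by omega), if_pos h, Finset.card_insert_of_notMem (by simp)]
      push_cast
      ring

theorem level_eq (d s : ℤ) (F : Finset ℤ) (k o : ℕ) :
    Level d s F k o = Pool.Agent.H499R2.LT.Lev d s F k o := by
  ext x
  unfold Level Pool.Agent.H499R2.LT.Lev
  rw [Set.mem_ofPred_eq, Set.mem_ofPred_eq, odds_eq, Nat.cast_inj]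
  rfl

/-- Local limit theorem. Let `d` be odd and prime to `3`, `s` a sign and `F` a finite set of
integers. The integers of the level `(k, o)` are of the size of `2^k / 3^o`, up to a factor `A`.
There is `c ≥ 0` such that, for every `K`, the number of these integers is
`(c + o(1)) * binomial(k, o) / 3^o`, uniformly for `|2 o - k| ≤ K √k` as `k → ∞`. The constant `c`
is positive if and only if the integers of the sign of `s` whose orbit meets `F` have positive
natural density (the density exists), in particular if `F` contains an integer of the sign of `s`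
which is prime to `3`. -/
theorem result (d : ℤ) (hd : d % 2 = 1) (hd3 : ¬ (3 : ℤ) ∣ d) (s : ℤ) (hs : s = 1 ∨ s = -1)
    (F : Finset ℤ) :
    ∃ A c δ : ℝ, 1 ≤ A ∧ 0 ≤ c ∧
      (∀ (k o : ℕ) (x : ℤ), x ∈ Level d s F k o →
        2 ^ k / (A * 3 ^ o) ≤ |(x : ℝ)| ∧ |(x : ℝ)| ≤ A * 2 ^ k / 3 ^ o) ∧
      (∀ K ε : ℝ, 0 < ε → ∃ k0 : ℕ, ∀ k o : ℕ, k0 ≤ k → |2 * (o : ℝ) - k| ≤ K * Real.sqrt k →
        |((Level d s F k o).ncard : ℝ) * 3 ^ o / (k.choose o : ℝ) - c| ≤ ε) ∧
      HasDensity (fun n => ∃ k : ℕ, (T d)^[k] (s * n) ∈ F) δ ∧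
      (0 < c ↔ 0 < δ) ∧
      ((∃ a ∈ F, 0 < s * a ∧ ¬ (3 : ℤ) ∣ a) → 0 < c) := by
  have hodd : Odd d := Int.odd_iff.2 hd
  obtain ⟨A, hA, hA'⟩ := Pool.Agent.H499R2.LT.lev_size hodd hd3 (s := s) F
  obtain ⟨δ, c, h1, h2, h3, h4, h5, _, h6⟩ := Pool.Agent.H499R2.LT.laws_side hodd hd3 hs F
  refine ⟨A, c, δ, hA, h2, ?_, ?_, h5, h3, fun h => h3.2 (h4 h)⟩
  · intro k o x hx
    rw [level_eq] at hx
    exact hA' k o x hx
  · intro K ε hε
    obtain ⟨k0, hk0⟩ := h6 K ε hε
    refine ⟨k0, fun k o hk ho => ?_⟩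
    rw [level_eq]
    exact hk0 k o hk ho

end Pool.Agent.Results.MP_d0d59f_nt.TreeLocalLimit
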